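import Mathlib

open Filter Topology

noncomputable section

namespace Pool.Agent.Lib.MP_45e0c4_an

variable {𝕜 : Type*} [RCLike 𝕜] {β Z : Type*} [NormedAddCommGroup Z] [NormedSpace 𝕜 Z]
  (b : UnconditionalSchauderBasis β 𝕜 Z)

open Classical in
lemma coord_proj (B : Finset β) (z : Z) (i : β) :
    b.coord i (b.proj B z) = if i ∈ B then b.coord i z else 0 := by
  rw [GeneralSchauderBasis.proj_apply, map_sum]
  simp only [map_smul, b.ortho, smul_eq_mul]
  rw [Finset.sum_congr rfl (g := fun j => if j = i then b.coord j z else 0)]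
  · rw [Finset.sum_ite_eq' B i]
  · intro j _
    by_cases h : j = i
    · subst h; simp
    · rw [Pi.single_eq_of_ne (fun h' => h h'.symm), mul_zero, if_neg h]

/-- The absolute value of a functional on a vector, on a finite set of coordinates. -/
def S (A : Finset β) (G : StrongDual 𝕜 Z) (z : Z) : ℝ := ∑ i ∈ A, ‖G (b.coord i z • b i)‖

lemma S_nonneg (A : Finset β) (G : StrongDual 𝕜 Z) (z : Z) : 0 ≤ S b A G z :=
  Finset.sum_nonneg fun _ _ => norm_nonneg _

lemma S_add (A : Finset β) (G : StrongDual 𝕜 Z) (z z' : Z) :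
    S b A G (z + z') ≤ S b A G z + S b A G z' := by
  unfold S
  rw [← Finset.sum_add_distrib]
  apply Finset.sum_le_sum
  intro i _
  rw [map_add, add_smul, map_add]
  exact norm_add_le _ _

lemma S_smul (A : Finset β) (G : StrongDual 𝕜 Z) (c : 𝕜) (z : Z) :
    S b A G (c • z) = ‖c‖ * S b A G z := by
  unfold S
  rw [Finset.mul_sum]
  apply Finset.sum_congr rfl
  intro i _
  rw [map_smul (b.coord i), smul_assoc, map_smul G, norm_smul]

lemma S_sub (A : Finset β) (G : StrongDual 𝕜 Z) (z z' : Z) :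
    S b A G z - S b A G z' ≤ S b A G (z - z') := by
  have h := S_add b A G (z - z') z'
  rw [sub_add_cancel] at h
  linarith

lemma S_neg (A : Finset β) (G : StrongDual 𝕜 Z) (z : Z) : S b A G (-z) = S b A G z := by
  have h := S_smul b A G (-1) z
  rw [neg_one_smul, norm_neg, norm_one, one_mul] at h
  exact h

lemma S_proj {A B : Finset β} (h : A ⊆ B) (G : StrongDual 𝕜 Z) (z : Z) :
    S b A G (b.proj B z) = S b A G z := by
  classical
  unfold S
  apply Finset.sum_congr rfl
  intro i hi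
  rw [coord_proj, if_pos (h hi)]

lemma S_proj_disjoint {A B : Finset β} (h : Disjoint A B) (G : StrongDual 𝕜 Z) (z : Z) :
    S b A G (b.proj B z) = 0 := by
  classical
  unfold S
  apply Finset.sum_eq_zero
  intro i hi
  rw [coord_proj, if_neg (Finset.disjoint_left.mp h hi)]
  simp

lemma S_sub_proj {A B : Finset β} (h : Disjoint A B) (G : StrongDual 𝕜 Z) (z : Z) :
    S b A G z = S b A G (z - b.proj B z) := by
  classical
  unfold S
  apply Finset.sum_congr rfl
  intro i hi
  rw [map_sub, coord_proj, if_neg (Finset.disjoint_left.mp h hi), sub_zero]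

lemma norm_proj_le_S (A : Finset β) (G : StrongDual 𝕜 Z) (z : Z) :
    ‖G (b.proj A z)‖ ≤ S b A G z := by
  unfold S
  rw [GeneralSchauderBasis.proj_apply, map_sum]
  exact norm_sum_le _ _

lemma S_le {C : ℝ} (hC : ∀ A : Finset β, ‖b.proj A‖ ≤ C) (A : Finset β) (G : StrongDual 𝕜 Z)
    (z : Z) : S b A G z ≤ 4 * C * ‖G‖ * ‖z‖ := by
  classical
  have hb : ∀ B : Finset β, ‖G (b.proj B z)‖ ≤ C * ‖G‖ * ‖z‖ := by
    intro B
    calc ‖G (b.proj B z)‖ ≤ ‖G‖ * ‖b.proj B z‖ := G.le_opNorm _
      _ ≤ ‖G‖ * (‖b.proj B‖ * ‖z‖) := by gcongr; exact (b.proj B).le_opNorm _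
      _ ≤ ‖G‖ * (C * ‖z‖) := by gcongr; exact hC B
      _ = C * ‖G‖ * ‖z‖ := by ring
  set a : β → 𝕜 := fun i => G (b.coord i z • b i) with ha
  have hsum : ∀ B : Finset β, G (b.proj B z) = ∑ i ∈ B, a i := by
    intro B
    rw [GeneralSchauderBasis.proj_apply, map_sum]
  have hre : ∑ i ∈ A, |RCLike.re (a i)| ≤ 2 * (C * ‖G‖ * ‖z‖) := by
    have h1 : ∑ i ∈ A, |RCLike.re (a i)| =
        RCLike.re (∑ i ∈ A.filter (fun i => 0 ≤ RCLike.re (a i)), a i) -
        RCLike.re (∑ i ∈ A.filter (fun i => ¬ 0 ≤ RCLike.re (a i)), a i) := by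
      rw [← Finset.sum_filter_add_sum_filter_not A (fun i => 0 ≤ RCLike.re (a i)), map_sum, map_sum,
        sub_eq_add_neg, ← Finset.sum_neg_distrib]
      congr 1
      · apply Finset.sum_congr rfl
        intro i hi
        exact abs_of_nonneg (Finset.mem_filter.mp hi).2
      · apply Finset.sum_congr rfl
        intro i hi
        exact abs_of_neg (not_le.mp (Finset.mem_filter.mp hi).2)
    rw [h1, ← hsum, ← hsum]
    have h2 := (le_abs_self _).trans ((RCLike.abs_re_le_norm
      (G (b.proj (A.filter (fun i => 0 ≤ RCLike.re (a i))) z))).trans (hb _))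
    have h3 := (neg_le_abs _).trans ((RCLike.abs_re_le_norm
      (G (b.proj (A.filter (fun i => ¬ 0 ≤ RCLike.re (a i))) z))).trans (hb _))
    linarith
  have him : ∑ i ∈ A, |RCLike.im (a i)| ≤ 2 * (C * ‖G‖ * ‖z‖) := by
    have h1 : ∑ i ∈ A, |RCLike.im (a i)| =
        RCLike.im (∑ i ∈ A.filter (fun i => 0 ≤ RCLike.im (a i)), a i) -
        RCLike.im (∑ i ∈ A.filter (fun i => ¬ 0 ≤ RCLike.im (a i)), a i) := by
      rw [← Finset.sum_filter_add_sum_filter_not A (fun i => 0 ≤ RCLike.im (a i)), map_sum, map_sum,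
        sub_eq_add_neg, ← Finset.sum_neg_distrib]
      congr 1
      · apply Finset.sum_congr rfl
        intro i hi
        exact abs_of_nonneg (Finset.mem_filter.mp hi).2
      · apply Finset.sum_congr rfl
        intro i hi
        exact abs_of_neg (not_le.mp (Finset.mem_filter.mp hi).2)
    rw [h1, ← hsum, ← hsum]
    have h2 := (le_abs_self _).trans ((RCLike.abs_im_le_norm
      (G (b.proj (A.filter (fun i => 0 ≤ RCLike.im (a i))) z))).trans (hb _))
    have h3 := (neg_le_abs _).trans ((RCLike.abs_im_le_norm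
      (G (b.proj (A.filter (fun i => ¬ 0 ≤ RCLike.im (a i))) z))).trans (hb _))
    linarith
  calc S b A G z = ∑ i ∈ A, ‖a i‖ := rfl
    _ ≤ ∑ i ∈ A, (|RCLike.re (a i)| + |RCLike.im (a i)|) := by
        apply Finset.sum_le_sum
        intro i _
        calc ‖a i‖ = ‖(RCLike.re (a i) : 𝕜) + (RCLike.im (a i) : 𝕜) * RCLike.I‖ := by
              rw [RCLike.re_add_im]
          _ ≤ ‖(RCLike.re (a i) : 𝕜)‖ + ‖(RCLike.im (a i) : 𝕜) * RCLike.I‖ := norm_add_le _ _
          _ ≤ |RCLike.re (a i)| + |RCLike.im (a i)| := by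
              rw [norm_mul, RCLike.norm_ofReal, RCLike.norm_ofReal]
              have h4 : ‖(RCLike.I : 𝕜)‖ ≤ 1 := by
                rcases eq_or_ne (RCLike.I : 𝕜) 0 with h | h
                · rw [h, norm_zero]; exact zero_le_one
                · rw [RCLike.norm_I_of_ne_zero h]
              nlinarith [abs_nonneg (RCLike.im (a i))]
    _ = ∑ i ∈ A, |RCLike.re (a i)| + ∑ i ∈ A, |RCLike.im (a i)| := Finset.sum_add_distrib
    _ ≤ 4 * C * ‖G‖ * ‖z‖ := by linarith

end Pool.Agent.Lib.MP_45e0c4_an
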