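import Mathlib

open Filter Topology ENNReal

noncomputable section

namespace Pool.Agent.Lib.MP_45e0c4_an

variable {𝕜 : Type*} [RCLike 𝕜] {β Z : Type*} [NormedAddCommGroup Z] [NormedSpace 𝕜 Z]
  [CompleteSpace Z]

/-- Banach's theorem on the continuity of the coordinate functionals, unordered version. -/
theorem exists_basis (e : β → Z) (he : ∀ z : Z, ∃! a : β → 𝕜, HasSum (fun i => a i • e i) z) :
    ∃ b : UnconditionalSchauderBasis β 𝕜 Z, ∀ i, b i = e i := by
  classical
  choose a ha hau using he
  have huniq : ∀ z (c : β → 𝕜), HasSum (fun i => c i • e i) z → c = a z := fun z c hc => hau z c hc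
  have hadd : ∀ z z', a (z + z') = a z + a z' := by
    intro z z'
    refine (huniq _ _ ?_).symm
    have := (ha z).add (ha z')
    simpa [add_smul] using this
  have hsmul : ∀ (c : 𝕜) z, a (c • z) = c • a z := by
    intro c z
    refine (huniq _ _ ?_).symm
    have := (ha z).const_smul c
    simpa [smul_smul] using this
  have hbasis : ∀ i, a (e i) = Pi.single i 1 := by
    intro i
    refine (huniq _ _ ?_).symm
    have h := hasSum_single (f := fun j => (Pi.single i (1 : 𝕜) : β → 𝕜) j • e j) i (by
      intro j hj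
      simp [Pi.single_eq_of_ne hj])
    simpa using h
  have hne : ∀ i, e i ≠ 0 := by
    intro i hi
    have h1 := hbasis i
    have h0 : a 0 = 0 := by
      refine (huniq _ _ ?_).symm
      simp
    rw [hi, h0] at h1
    have := congrFun h1 i
    simp at this
  have hmem : ∀ z, Memℓp (fun A : Finset β => ∑ i ∈ A, a z i • e i) ∞ := by
    intro z
    apply memℓp_infty
    obtain ⟨A₀, hA₀⟩ := summable_iff_vanishing_norm.mp (ha z).summable 1 zero_lt_one
    refine ⟨(∑ i ∈ A₀, ‖a z i • e i‖) + 1, ?_⟩
    rintro _ ⟨A, rfl⟩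
    show ‖∑ i ∈ A, a z i • e i‖ ≤ _
    have h1 : ∑ i ∈ A, a z i • e i = ∑ i ∈ A ∩ A₀, a z i • e i + ∑ i ∈ A \ A₀, a z i • e i := by
      rw [← Finset.sum_union (Finset.disjoint_sdiff_inter A A₀).symm,
        Finset.union_comm, Finset.sdiff_union_inter]
    rw [h1]
    refine (norm_add_le _ _).trans (add_le_add ?_ (hA₀ (A \ A₀) Finset.sdiff_disjoint).le)
    refine (norm_sum_le _ _).trans ?_
    exact Finset.sum_le_sum_of_subset_of_nonneg Finset.inter_subset_right
      (fun _ _ _ => norm_nonneg _)
  let Φ : Z →ₗ[𝕜] lp (fun _ : Finset β => Z) ∞ :=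
    { toFun := fun z => ⟨fun A => ∑ i ∈ A, a z i • e i, hmem z⟩
      map_add' := by
        intro z z'
        ext A
        show ∑ i ∈ A, a (z + z') i • e i = ∑ i ∈ A, a z i • e i + ∑ i ∈ A, a z' i • e i
        rw [hadd, ← Finset.sum_add_distrib]
        simp [add_smul]
      map_smul' := by
        intro c z
        ext A
        show ∑ i ∈ A, a (c • z) i • e i = c • ∑ i ∈ A, a z i • e i
        rw [hsmul, Finset.smul_sum]
        simp [smul_smul] }
  have hΦ : ∀ z A, (Φ z : Finset β → Z) A = ∑ i ∈ A, a z i • e i := fun _ _ => rfl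
  have hcont : Continuous Φ := by
    apply LinearMap.continuous_of_seq_closed_graph
    intro u x f hu hf
    have hf' : ∀ A, Tendsto (fun n => (Φ (u n) : Finset β → Z) A) atTop (𝓝 ((f : Finset β → Z) A)) := by
      intro A
      rw [tendsto_iff_norm_sub_tendsto_zero] at hf ⊢
      refine squeeze_zero (fun _ => norm_nonneg _) (fun n => ?_) hf
      exact lp.norm_apply_le_norm (by simp) (Φ (u n) - f) A
    -- the coefficients
    have hspan : ∀ i, (f : Finset β → Z) {i} ∈ Submodule.span 𝕜 {e i} := by
      intro i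
      have hcl : IsClosed ((Submodule.span 𝕜 {e i} : Submodule 𝕜 Z) : Set Z) :=
        Submodule.closed_of_finiteDimensional _
      refine hcl.mem_of_tendsto (hf' {i}) (Eventually.of_forall fun n => ?_)
      rw [hΦ, Finset.sum_singleton]
      exact Submodule.smul_mem _ _ (Submodule.mem_span_singleton_self _)
    choose c hc using fun i => Submodule.mem_span_singleton.mp (hspan i)
    have hfA : ∀ A, (f : Finset β → Z) A = ∑ i ∈ A, c i • e i := by
      intro A
      refine tendsto_nhds_unique (hf' A) ?_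
      have h1 : Tendsto (fun n => ∑ i ∈ A, (Φ (u n) : Finset β → Z) {i}) atTop
          (𝓝 (∑ i ∈ A, (f : Finset β → Z) {i})) := tendsto_finsetSum _ fun i _ => hf' {i}
      have h2 : ∑ i ∈ A, (f : Finset β → Z) {i} = ∑ i ∈ A, c i • e i :=
        Finset.sum_congr rfl fun i _ => (hc i).symm
      rw [← h2]
      refine h1.congr fun n => ?_
      rw [hΦ]
      apply Finset.sum_congr rfl
      intro i _
      rw [hΦ, Finset.sum_singleton]
    have hsum : HasSum (fun i => c i • e i) x := by
      simp only [HasSum, SummationFilter.unconditional_filter]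
      rw [Metric.tendsto_atTop]
      intro ε hε
      have h1 := Metric.tendsto_atTop.mp hu (ε / 3) (by positivity)
      have h2 := Metric.tendsto_atTop.mp hf (ε / 3) (by positivity)
      obtain ⟨N1, hN1⟩ := h1
      obtain ⟨N2, hN2⟩ := h2
      set n := max N1 N2 with hn
      have h3 := ha (u n)
      simp only [HasSum, SummationFilter.unconditional_filter] at h3
      rw [Metric.tendsto_atTop] at h3
      obtain ⟨A₀, hA₀⟩ := h3 (ε / 3) (by positivity)
      refine ⟨A₀, fun A hA => ?_⟩
      have e1 : dist (∑ i ∈ A, c i • e i) (∑ i ∈ A, a (u n) i • e i) < ε / 3 := by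
        rw [← hfA A, ← hΦ, dist_comm, dist_eq_norm]
        refine (lp.norm_apply_le_norm (by simp) (Φ (u n) - f) A).trans_lt ?_
        rw [← dist_eq_norm]
        exact hN2 n (le_max_right _ _)
      have e2 := hA₀ A hA
      have e3 := hN1 n (le_max_left _ _)
      have e4 := dist_triangle4 (∑ i ∈ A, c i • e i) (∑ i ∈ A, a (u n) i • e i) (u n) x
      linarith
    have hca := huniq x c hsum
    ext A
    rw [hfA, hΦ, hca]
  let Φc : Z →L[𝕜] lp (fun _ : Finset β => Z) ∞ := ⟨Φ, hcont⟩
  have hbd : ∀ i z, ‖a z i‖ ≤ (‖Φc‖ / ‖e i‖) * ‖z‖ := by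
    intro i z
    have h1 : ‖a z i • e i‖ ≤ ‖Φc‖ * ‖z‖ := by
      calc ‖a z i • e i‖ = ‖(Φ z : Finset β → Z) {i}‖ := by rw [hΦ, Finset.sum_singleton]
        _ ≤ ‖Φ z‖ := lp.norm_apply_le_norm (by simp) (Φ z) {i}
        _ ≤ ‖Φc‖ * ‖z‖ := Φc.le_opNorm z
    rw [norm_smul] at h1
    rw [div_mul_eq_mul_div, le_div_iff₀ (norm_pos_iff.mpr (hne i))]
    exact h1
  refine ⟨{ basis := e
            coord := fun i => LinearMap.mkContinuous
              { toFun := fun z => a z i
                map_add' := fun z z' => by rw [hadd]; rfl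
                map_smul' := fun c z => by rw [hsmul]; rfl } _ (hbd i)
            ortho := fun i j => ?_
            expansion := fun z => ?_ }, fun i => rfl⟩
  · show a (e j) i = _
    rw [hbasis]
  · exact ha z

end Pool.Agent.Lib.MP_45e0c4_an
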