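import Pool.Agent.Lib.MP_45e0c4_an.Step

open Filter Topology

noncomputable section

namespace Pool.Agent.Lib.MP_45e0c4_an

variable {𝕜 : Type*} [RCLike 𝕜] {β Z : Type*} [NormedAddCommGroup Z] [NormedSpace 𝕜 Z]
  (b : UnconditionalSchauderBasis β 𝕜 Z) {X : Type*} [NormedAddCommGroup X] [NormedSpace 𝕜 X]
  (T : X →L[𝕜] Z)

/-- Norming functionals for points of `X`, extended to `Z`. -/
lemma exists_adm {c : ℝ} (hc : 0 < c) (hT : ∀ x : X, c * ‖x‖ ≤ ‖T x‖) {xh : X} (hxh : ‖xh‖ = 1) :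
    ∃ G : StrongDual 𝕜 Z, Adm T (1 / c) G ∧ RCLike.re (G (T xh)) = 1 := by
  have hne : xh ≠ 0 := by
    intro h
    rw [h, norm_zero] at hxh
    exact zero_ne_one hxh
  obtain ⟨g, hg1, hg2⟩ := exists_dual_vector 𝕜 xh (by rw [hxh]; exact one_ne_zero)
  have hinj : Function.Injective (T.toLinearMap) := by
    rw [← LinearMap.ker_eq_bot, LinearMap.ker_eq_bot']
    intro m hm
    have h1 := hT m
    have h2 : T m = 0 := hm
    rw [h2, norm_zero] at h1
    have h3 : ‖m‖ ≤ 0 := by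
      by_contra h4
      push Not at h4
      nlinarith [mul_pos hc h4]
    exact norm_le_zero_iff.mp h3
  set e := LinearEquiv.ofInjective T.toLinearMap hinj with he
  have hes : ∀ z : LinearMap.range T.toLinearMap, T (e.symm z) = z := by
    intro z
    have := e.apply_symm_apply z
    rw [← Subtype.coe_inj] at this
    exact this
  have hbd : ∀ z : LinearMap.range T.toLinearMap, ‖(g.toLinearMap ∘ₗ e.symm.toLinearMap) z‖ ≤
      (1 / c) * ‖z‖ := by
    intro z
    have h1 : ‖g (e.symm z)‖ ≤ ‖e.symm z‖ := by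
      have := g.le_opNorm (e.symm z)
      rwa [hg1, one_mul] at this
    have h2 := hT (e.symm z)
    rw [hes z] at h2
    have h3 : ‖e.symm z‖ ≤ (1 / c) * ‖z‖ := by
      rw [one_div, ← div_eq_inv_mul, le_div_iff₀ hc, mul_comm]
      exact h2
    exact h1.trans h3
  obtain ⟨G, hG1, hG2⟩ := exists_extension_norm_eq (LinearMap.range T.toLinearMap)
    ((g.toLinearMap ∘ₗ e.symm.toLinearMap).mkContinuous (1 / c) hbd)
  have hGT : ∀ x : X, G (T x) = g x := by
    intro x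
    have h1 := hG1 (e x)
    have h2 : ((e x : LinearMap.range T.toLinearMap) : Z) = T x := rfl
    rw [h2] at h1
    rw [h1, LinearMap.mkContinuous_apply]
    simp
  refine ⟨G, ⟨?_, ?_⟩, ?_⟩
  · rw [hG2]
    exact LinearMap.mkContinuous_norm_le _ (by positivity) _
  · intro x
    rw [hGT]
    have := g.le_opNorm x
    rwa [hg1, one_mul] at this
  · rw [hGT, hg2, hxh]
    simp

theorem not_superADP_of_embedding [CompleteSpace Z] (b : UnconditionalSchauderBasis β 𝕜 Z)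
    (T : X →L[𝕜] Z) {c : ℝ} (hc : 0 < c) (hT : ∀ x : X, c * ‖x‖ ≤ ‖T x‖)
    (hX : ¬ FiniteDimensional 𝕜 X) : ¬ SuperADP 𝕜 X := by
  classical
  intro hSA
  obtain ⟨C, hC⟩ := b.exists_norm_proj_le
  have hC0 : 0 ≤ C := (norm_nonneg _).trans (hC ∅)
  have hL : 0 ≤ 1 / c := by positivity
  have hcl : ∀ n : ℕ, Claim b T (1 / c) ((n : ℝ) + 1) := by
    intro n
    induction n with
    | zero => simpa using claim_base b T hSA hX hL
    | succ n ih =>
      have := claim_step b T hSA hX hL hC ih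
      push_cast
      exact this
  obtain ⟨n, hn⟩ := exists_nat_gt (4 * C * (1 / c) * ‖T‖)
  obtain ⟨x, hx, -⟩ := exists_sphere hX (∅ : Finset ℕ) (fun _ => (0 : StrongDual 𝕜 X)) 0 (by simp)
  obtain ⟨xh, hxh, y, hy, η, hη, B, -, -, -, h⟩ := hcl n (1 / 2) (by norm_num) x hx ∅
  obtain ⟨G, hG, hG1⟩ := exists_adm T hc hT hxh
  obtain ⟨-, -, h1⟩ := h G hG (by rw [hG1]; linarith)
  have h2 := S_le b hC (B \ ∅) G (T y)
  have h3 : 4 * C * ‖G‖ * ‖T y‖ ≤ 4 * C * (1 / c) * ‖T‖ := by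
    have h4 : ‖T y‖ ≤ ‖T‖ := by
      calc ‖T y‖ ≤ ‖T‖ * ‖y‖ := T.le_opNorm y
        _ ≤ ‖T‖ * 1 := by gcongr
        _ = ‖T‖ := mul_one _
    have h5 := hG.1
    gcongr
  linarith

end Pool.Agent.Lib.MP_45e0c4_an
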