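import Pool.Agent.Lib.MP_45e0c4_an.Weak
import Pool.Agent.Lib.MP_45e0c4_an.Abs

open Filter Topology

noncomputable section

namespace Pool.Agent.Lib.MP_45e0c4_an

variable {𝕜 : Type*} [RCLike 𝕜] {β Z : Type*} [NormedAddCommGroup Z] [NormedSpace 𝕜 Z]
  (b : UnconditionalSchauderBasis β 𝕜 Z) {X : Type*} [NormedAddCommGroup X] [NormedSpace 𝕜 X]
  (T : X →L[𝕜] Z)

lemma exists_small {K ε : ℝ} (hK : 0 ≤ K) (hε : 0 < ε) :
    ∃ δ : ℝ, 0 < δ ∧ δ ≤ 1 ∧ K * δ + Real.sqrt (2 * δ) ≤ ε := by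
  set t : ℝ := min 1 (ε / (K + 2)) with ht
  have htpos : 0 < t := lt_min one_pos (by positivity)
  have ht1 : t ≤ 1 := min_le_left _ _
  have ht2 : t ≤ ε / (K + 2) := min_le_right _ _
  have ht3 : (K + 2) * t ≤ ε := by
    have := mul_le_mul_of_nonneg_left ht2 (by linarith : (0 : ℝ) ≤ K + 2)
    rwa [mul_div_cancel₀ _ (by linarith : (K + 2 : ℝ) ≠ 0)] at this
  refine ⟨t ^ 2, by positivity, by nlinarith, ?_⟩
  have h1 : Real.sqrt (2 * t ^ 2) ≤ 2 * t := by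
    apply Real.sqrt_le_iff.mpr
    constructor
    · positivity
    · nlinarith [sq_nonneg t]
  have h2 : K * t ^ 2 ≤ K * t := by
    apply mul_le_mul_of_nonneg_left _ hK
    nlinarith
  linarith

/-- Functionals on `Z` of norm at most `L` that are contractive on `X`. -/
def Adm (L : ℝ) (G : StrongDual 𝕜 Z) : Prop := ‖G‖ ≤ L ∧ ∀ x : X, ‖G (T x)‖ ≤ ‖x‖

/-- The inductive statement. -/
def Claim (L : ℝ) (r : ℝ) : Prop :=
  ∀ ε : ℝ, 0 < ε → ∀ x : X, ‖x‖ = 1 → ∀ A : Finset β,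
    ∃ xh : X, ‖xh‖ = 1 ∧ ∃ y : X, ‖y‖ ≤ 1 ∧ ∃ η : ℝ, 0 < η ∧ ∃ B : Finset β, A ⊆ B ∧
      ‖b.proj A (T y)‖ ≤ ε ∧ ‖T y - b.proj B (T y)‖ ≤ ε ∧
      ∀ G : StrongDual 𝕜 Z, Adm T L G → 1 - η < RCLike.re (G (T xh)) →
        1 - ε < RCLike.re (G (T x)) ∧ 1 - ε < RCLike.re (G (T y)) ∧
          open Classical in r - ε ≤ S b (B \ A) G (T y)

/-- Applying the super ADP near `u`. -/
lemma SuperADP.apply_near (h : SuperADP 𝕜 X) (hX : ¬ FiniteDimensional 𝕜 X) (B : Finset β)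
    {x u : X} (hx : ‖x‖ = 1) (hu : ‖u‖ ≤ 1) {δ : ℝ} (hδ : 0 < δ) :
    ∃ y : X, ‖y‖ ≤ 1 ∧ ‖b.proj B (T (y - u))‖ ≤ δ ∧ ∃ θ : 𝕜, ‖θ‖ = 1 ∧
      2 - δ < ‖x + θ • y‖ := by
  classical
  set N : ℝ := ∑ i ∈ B, ‖b i‖ with hN
  have hN0 : 0 ≤ N := Finset.sum_nonneg fun _ _ => norm_nonneg _
  set δ' : ℝ := min δ (δ / (N + 1)) with hδ'
  have hδ'pos : 0 < δ' := lt_min hδ (by positivity)
  obtain ⟨y, hy1, hy2, θ, hθ, hy3⟩ := h.exists_near hX B (fun i => (b.coord i).comp T) hx hu hδ'pos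
  refine ⟨y, hy1, ?_, θ, hθ, ?_⟩
  · rw [GeneralSchauderBasis.proj_apply]
    calc ‖∑ i ∈ B, b.coord i (T (y - u)) • b i‖ ≤ ∑ i ∈ B, ‖b.coord i (T (y - u)) • b i‖ :=
          norm_sum_le _ _
      _ ≤ ∑ i ∈ B, δ' * ‖b i‖ := by
          apply Finset.sum_le_sum
          intro i hi
          rw [norm_smul]
          have h1 := (hy2 i hi).le
          simp only [ContinuousLinearMap.comp_apply] at h1
          rw [map_sub, map_sub]
          gcongr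
      _ = δ' * N := by rw [hN, Finset.mul_sum]
      _ ≤ (δ / (N + 1)) * (N + 1) := by
          apply mul_le_mul (min_le_right _ _) (by linarith) hN0 (by positivity)
      _ = δ := by field_simp
  · have : δ' ≤ δ := min_le_left _ _
    linarith

lemma exists_proj_near (z : Z) (B : Finset β) {δ : ℝ} (hδ : 0 < δ) :
    ∃ B' : Finset β, B ⊆ B' ∧ ‖z - b.proj B' z‖ ≤ δ := by
  have h := b.tendsto_proj z
  rw [Metric.tendsto_nhds] at h
  have h1 := h δ hδ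
  rw [SummationFilter.unconditional_filter, eventually_atTop] at h1
  obtain ⟨B0, hB0⟩ := h1
  classical
  refine ⟨B ∪ B0, Finset.subset_union_left, ?_⟩
  have h2 := hB0 (B ∪ B0) Finset.subset_union_right
  rw [dist_eq_norm, norm_sub_rev] at h2
  exact h2.le

/-- If `G` is contractive on `X` and nearly norms `(x + y)/‖x + y‖`, it nearly norms both. -/
lemma norming {L : ℝ} {G : StrongDual 𝕜 Z} (hG : Adm T L G) {x y : X} (hx : ‖x‖ ≤ 1)
    (hy : ‖y‖ ≤ 1) {δ η : ℝ} (hδ0 : 0 < δ) (hδ1 : δ ≤ 1) (hη : 0 < η) (hη1 : η ≤ 1)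
    (hxy : 2 - δ < ‖x + y‖)
    (h : 1 - η < RCLike.re (G (T (((‖x + y‖⁻¹ : ℝ) : 𝕜) • (x + y))))) :
    1 - δ - 2 * η < RCLike.re (G (T x)) ∧ 1 - δ - 2 * η < RCLike.re (G (T y)) := by
  have hn : 0 < ‖x + y‖ := by linarith
  have h1 : RCLike.re (G (T (((‖x + y‖⁻¹ : ℝ) : 𝕜) • (x + y)))) =
      ‖x + y‖⁻¹ * (RCLike.re (G (T x)) + RCLike.re (G (T y))) := by
    rw [map_smul, map_smul, smul_eq_mul, RCLike.re_ofReal_mul, map_add, map_add, map_add]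
  rw [h1] at h
  have h2 : (1 - η) * ‖x + y‖ < RCLike.re (G (T x)) + RCLike.re (G (T y)) := by
    have := mul_lt_mul_of_pos_right h hn
    rwa [mul_comm (‖x + y‖⁻¹ * _), ← mul_assoc, mul_inv_cancel₀ hn.ne', one_mul] at this
  have hGx : RCLike.re (G (T x)) ≤ 1 := (RCLike.re_le_norm _).trans ((hG.2 x).trans hx)
  have hGy : RCLike.re (G (T y)) ≤ 1 := (RCLike.re_le_norm _).trans ((hG.2 y).trans hy)
  have h3 : (1 - η) * (2 - δ) ≤ (1 - η) * ‖x + y‖ :=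
    mul_le_mul_of_nonneg_left hxy.le (by linarith)
  have h4 : 2 - δ - 2 * η ≤ (1 - η) * (2 - δ) := by nlinarith [mul_pos hη hδ0]
  constructor <;> linarith

end Pool.Agent.Lib.MP_45e0c4_an
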