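import Pool.Agent.Lib.MP_45e0c4_an.Setup

open Filter Topology

noncomputable section

namespace Pool.Agent.Lib.MP_45e0c4_an

variable {𝕜 : Type*} [RCLike 𝕜] {β Z : Type*} [NormedAddCommGroup Z] [NormedSpace 𝕜 Z]
  (b : UnconditionalSchauderBasis β 𝕜 Z) {X : Type*} [NormedAddCommGroup X] [NormedSpace 𝕜 X]
  (T : X →L[𝕜] Z)

lemma norm_sub_one_le {z : 𝕜} {ε : ℝ} (hz : ‖z‖ ≤ 1) (h : 1 - ε < RCLike.re z) :
    ‖z - 1‖ ≤ Real.sqrt (2 * ε) := by
  apply Real.le_sqrt_of_sq_le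
  have h1 : ‖z - 1‖ ^ 2 = ‖z‖ ^ 2 - 2 * RCLike.re z + 1 := by
    rw [← RCLike.normSq_eq_def', ← RCLike.normSq_eq_def', RCLike.normSq_apply, RCLike.normSq_apply]
    simp only [map_sub, RCLike.one_re, RCLike.one_im]
    ring
  rw [h1]
  have h2 : ‖z‖ ^ 2 ≤ 1 := by nlinarith [norm_nonneg z]
  linarith

open Classical in
lemma proj_sdiff {A B : Finset β} (h : A ⊆ B) (z : Z) :
    b.proj (B \ A) z = b.proj B z - b.proj A z := by
  rw [GeneralSchauderBasis.proj_apply, GeneralSchauderBasis.proj_apply,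
    GeneralSchauderBasis.proj_apply, ← Finset.sum_sdiff h, add_sub_cancel_right]

open Classical in
lemma S_sdiff_ge {A B : Finset β} (h : A ⊆ B) {L : ℝ} {G : StrongDual 𝕜 Z} (hG : ‖G‖ ≤ L) (z : Z) :
    ‖G z‖ - L * ‖z - b.proj B z‖ - ‖G (b.proj A z)‖ ≤ S b (B \ A) G z := by
  have h1 := norm_proj_le_S b (B \ A) G z
  rw [proj_sdiff b h] at h1
  have h2 : G z = G (b.proj B z - b.proj A z) + G (z - b.proj B z) + G (b.proj A z) := by
    rw [← map_add, ← map_add]
    congr 1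
    abel
  have h3 : ‖G z‖ ≤ ‖G (b.proj B z - b.proj A z)‖ + ‖G (z - b.proj B z)‖ + ‖G (b.proj A z)‖ := by
    conv_lhs => rw [h2]
    exact norm_add₃_le
  have h4 : ‖G (z - b.proj B z)‖ ≤ L * ‖z - b.proj B z‖ :=
    (G.le_opNorm _).trans (mul_le_mul_of_nonneg_right hG (norm_nonneg _))
  linarith

lemma claim_base (hSA : SuperADP 𝕜 X) (hX : ¬ FiniteDimensional 𝕜 X) {L : ℝ} (hL : 0 ≤ L) :
    Claim b T L 1 := by
  classical
  intro ε hε x hx A
  obtain ⟨δ, hδ0, hδ1, hδ⟩ := exists_small (K := 3 + 2 * L) (by linarith) hε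
  have hsq : 0 ≤ Real.sqrt (2 * δ) := Real.sqrt_nonneg _
  have hδL : 0 ≤ L * δ := mul_nonneg hL hδ0.le
  obtain ⟨y, hy1, hy2, θ, hθ, hy3⟩ := hSA.apply_near b T hX A hx (u := 0) (by simp) hδ0
  rw [sub_zero] at hy2
  have hy3n : ‖θ • y‖ ≤ 1 := by rw [norm_smul, hθ, one_mul]; exact hy1
  obtain ⟨B, hAB, hB⟩ := exists_proj_near b (T (θ • y)) A hδ0
  have hn : 0 < ‖x + θ • y‖ := by linarith
  refine ⟨((‖x + θ • y‖⁻¹ : ℝ) : 𝕜) • (x + θ • y), ?_, θ • y, hy3n, δ, hδ0, B, hAB, ?_, ?_, ?_⟩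
  · rw [norm_smul, RCLike.norm_ofReal, abs_of_pos (inv_pos.mpr hn), inv_mul_cancel₀ hn.ne']
  · rw [map_smul, map_smul, norm_smul, hθ, one_mul]
    linarith
  · linarith
  · intro G hG hre
    have h1 := norming T hG hx.le hy3n hδ0 hδ1 hδ0 hδ1 hy3 hre
    refine ⟨by linarith [h1.1], by linarith [h1.2], ?_⟩
    have h2 := S_sdiff_ge b hAB hG.1 (T (θ • y))
    have h3 : 1 - δ - 2 * δ < ‖G (T (θ • y))‖ := h1.2.trans_le (RCLike.re_le_norm _)
    have h4 : L * ‖T (θ • y) - b.proj B (T (θ • y))‖ ≤ L * δ := mul_le_mul_of_nonneg_left hB hL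
    have h5 : ‖G (b.proj A (T (θ • y)))‖ ≤ L * δ := by
      calc ‖G (b.proj A (T (θ • y)))‖ ≤ ‖G‖ * ‖b.proj A (T (θ • y))‖ := G.le_opNorm _
        _ ≤ L * δ := by
            apply mul_le_mul hG.1 _ (norm_nonneg _) hL
            rw [map_smul, map_smul, norm_smul, hθ, one_mul]
            exact hy2
    linarith

lemma claim_step (hSA : SuperADP 𝕜 X) (hX : ¬ FiniteDimensional 𝕜 X) {L C : ℝ} (hL : 0 ≤ L)
    (hC : ∀ A : Finset β, ‖b.proj A‖ ≤ C) {r : ℝ} (hr : Claim b T L r) :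
    Claim b T L (r + 1) := by
  classical
  have hC0 : 0 ≤ C := (norm_nonneg _).trans (hC ∅)
  have hCz : ∀ (A : Finset β) (z : Z), ‖b.proj A z‖ ≤ C * ‖z‖ := fun A z =>
    ((b.proj A).le_opNorm z).trans (mul_le_mul_of_nonneg_right (hC A) (norm_nonneg _))
  set KL : ℝ := 4 * C * L with hKL
  have hKL0 : 0 ≤ KL := by positivity
  intro ε hε x hx A
  obtain ⟨δ, hδ0, hδ1, hδ⟩ := exists_small (K := 3 + 3 * KL + 3 * L + L * C + 2 * C)
    (by positivity) hε
  have hsq : 0 ≤ Real.sqrt (2 * δ) := Real.sqrt_nonneg _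
  have hδL : 0 ≤ L * δ := by positivity
  have hδKL : 0 ≤ KL * δ := by positivity
  have hδC : 0 ≤ C * δ := by positivity
  have hδLC : 0 ≤ L * C * δ := by positivity
  have hδexp : (3 + 3 * KL + 3 * L + L * C + 2 * C) * δ = 3 * δ + 3 * (KL * δ) + 3 * (L * δ) +
      L * C * δ + 2 * (C * δ) := by ring
  rw [hδexp] at hδ
  obtain ⟨xh1, hxh1, y1, hy1, η1, hη1, B1, hAB1, h1a, h1b, h1c⟩ := hr δ hδ0 x hx A
  obtain ⟨xh2, hxh2, y2, hy2, η2, hη2, B2, hB12, h2a, h2b, h2c⟩ :=
    hr (min δ η1) (lt_min hδ0 hη1) xh1 hxh1 B1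
  have h2a' : ‖b.proj B1 (T y2)‖ ≤ δ := h2a.trans (min_le_left _ _)
  have h2b' : ‖T y2 - b.proj B2 (T y2)‖ ≤ δ := h2b.trans (min_le_left _ _)
  set u : X := (1 / 2 : 𝕜) • (y1 - y2) with hu
  have hhalf : ‖(1 / 2 : 𝕜)‖ = 1 / 2 := by
    rw [norm_div, norm_one, RCLike.norm_ofNat]
  have hun : ‖u‖ ≤ 1 := by
    rw [hu, norm_smul, hhalf]
    have := norm_sub_le y1 y2
    linarith
  have hTu : T u = (1 / 2 : 𝕜) • (T y1 - T y2) := by rw [hu, map_smul, map_sub]
  set m : ℝ := min (min η2 δ) 1 with hm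
  have hm0 : 0 < m := lt_min (lt_min hη2 hδ0) one_pos
  have hm1 : m ≤ 1 := min_le_right _ _
  have hmη : m ≤ η2 := (min_le_left _ _).trans (min_le_left _ _)
  have hmδ : m ≤ δ := (min_le_left _ _).trans (min_le_right _ _)
  obtain ⟨y, hy, hyB, θ, hθ, hnorm⟩ := hSA.apply_near b T hX B2 hxh2 hun
    (δ := m / 4) (by positivity)
  have hyB' : ‖b.proj B2 (T (y - u))‖ ≤ δ := by linarith
  have hy3n : ‖θ • y‖ ≤ 1 := by rw [norm_smul, hθ, one_mul]; exact hy
  obtain ⟨B3, hB23, hB3⟩ := exists_proj_near b (T y) B2 hδ0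
  have hn : 0 < ‖xh2 + θ • y‖ := by linarith
  -- some norm computations
  have hAB2 : A ⊆ B2 := hAB1.trans hB12
  have hpp : ∀ {A B : Finset β}, A ⊆ B → ∀ z, b.proj A (b.proj B z) = b.proj A z := by
    intro A B hAB z
    have h := b.proj_comp A B z
    rw [h]
    congr 2
    ext i
    simp only [Finset.mem_inter]
    exact ⟨fun h => h.1, fun h => ⟨h, hAB h⟩⟩
  have hpp' : ∀ {A B : Finset β}, A ⊆ B → ∀ z, b.proj B (b.proj A z) = b.proj A z := by
    intro A B hAB z
    have h := b.proj_comp B A z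
    rw [h]
    congr 2
    ext i
    simp only [Finset.mem_inter]
    exact ⟨fun h => h.2, fun h => ⟨hAB h, h⟩⟩
  have hPAy2 : ‖b.proj A (T y2)‖ ≤ C * δ := by
    rw [← hpp hAB1]
    exact (hCz _ _).trans (mul_le_mul_of_nonneg_left h2a' hC0)
  have hPATu : ‖b.proj A (T u)‖ ≤ 1 / 2 * (δ + C * δ) := by
    rw [hTu, map_smul, norm_smul, hhalf, map_sub]
    have := norm_sub_le (b.proj A (T y1)) (b.proj A (T y2))
    linarith
  have hPATy : ‖b.proj A (T y)‖ ≤ C * δ + 1 / 2 * (δ + C * δ) := by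
    have h1 : b.proj A (T y) = b.proj A (b.proj B2 (T (y - u))) + b.proj A (T u) := by
      rw [hpp hAB2, ← map_add, ← map_add, sub_add_cancel]
    rw [h1]
    have h2 : ‖b.proj A (b.proj B2 (T (y - u)))‖ ≤ C * δ :=
      (hCz _ _).trans (mul_le_mul_of_nonneg_left hyB' hC0)
    exact (norm_add_le _ _).trans (by linarith)
  have hTuB2 : ‖T u - b.proj B2 (T u)‖ ≤ (1 + C) * δ := by
    have h1 : T u - b.proj B2 (T u) =
        (1 / 2 : 𝕜) • ((T y1 - b.proj B1 (T y1)) - b.proj B2 (T y1 - b.proj B1 (T y1)) -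
          (T y2 - b.proj B2 (T y2))) := by
      rw [hTu, map_smul, ← smul_sub]
      congr 1
      rw [map_sub, map_sub, hpp' hB12]
      abel
    rw [h1, norm_smul, hhalf]
    have h2 := norm_sub_le ((T y1 - b.proj B1 (T y1)) - b.proj B2 (T y1 - b.proj B1 (T y1)))
      (T y2 - b.proj B2 (T y2))
    have h3 := norm_sub_le (T y1 - b.proj B1 (T y1)) (b.proj B2 (T y1 - b.proj B1 (T y1)))
    have h4 : ‖b.proj B2 (T y1 - b.proj B1 (T y1))‖ ≤ C * δ :=
      (hCz _ _).trans (mul_le_mul_of_nonneg_left h1b hC0)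
    nlinarith
  refine ⟨((‖xh2 + θ • y‖⁻¹ : ℝ) : 𝕜) • (xh2 + θ • y), ?_, θ • y, hy3n, m / 4, by positivity, B3,
    hAB2.trans hB23, ?_, ?_, ?_⟩
  · rw [norm_smul, RCLike.norm_ofReal, abs_of_pos (inv_pos.mpr hn), inv_mul_cancel₀ hn.ne']
  · rw [map_smul, map_smul, norm_smul, hθ, one_mul]
    nlinarith
  · rw [map_smul, map_smul, ← smul_sub, norm_smul, hθ, one_mul]
    nlinarith
  · intro G hG hre
    have hnorm2 := norming T hG hxh2.le hy3n (by positivity : 0 < m / 4) (by linarith)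
      (by positivity : 0 < m / 4) (by linarith) hnorm hre
    have hre2 : 1 - η2 < RCLike.re (G (T xh2)) := by linarith [hnorm2.1]
    obtain ⟨h2x, h2y, h2S⟩ := h2c G hG hre2
    have hmin1 : min δ η1 ≤ δ := min_le_left _ _
    have hmin2 : min δ η1 ≤ η1 := min_le_right _ _
    obtain ⟨h1x, h1y, h1S⟩ := h1c G hG (by linarith)
    have hy3re : 1 - δ < RCLike.re (G (T (θ • y))) := by linarith [hnorm2.2]
    refine ⟨by nlinarith, by nlinarith, ?_⟩
    -- the bound for the absolute sums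
    have hSle : ∀ (D : Finset β) (z : Z), S b D G z ≤ KL * ‖z‖ := by
      intro D z
      calc S b D G z ≤ 4 * C * ‖G‖ * ‖z‖ := S_le b hC D G z
        _ ≤ KL * ‖z‖ := by
            rw [hKL]
            gcongr
            exact hG.1
    have hSTy3 : ∀ D : Finset β, S b D G (T (θ • y)) = S b D G (T y) := by
      intro D
      rw [map_smul, S_smul, hθ, one_mul]
    have hGTy : ‖G (T (θ • y))‖ = ‖G (T y)‖ := by
      rw [map_smul, map_smul, norm_smul, hθ, one_mul]
    -- comparison of `T y` and `T u` on subsets of `B2`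
    have hcomp : ∀ D : Finset β, D ⊆ B2 → S b D G (T u) - KL * δ ≤ S b D G (T y) := by
      intro D hD
      have h1 := S_sub b D G (T u) (T y)
      have h2 : S b D G (T u - T y) ≤ KL * δ := by
        rw [← map_sub, ← S_proj b hD]
        refine (hSle _ _).trans (mul_le_mul_of_nonneg_left ?_ hKL0)
        have h3 : b.proj B2 (T (u - y)) = - b.proj B2 (T (y - u)) := by
          rw [← map_neg, ← map_neg, neg_sub]
        rw [h3, norm_neg]
        exact hyB'
      linarith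
    have hSTu : ∀ D : Finset β, S b D G (T u) = 1 / 2 * S b D G (T y1 - T y2) := by
      intro D
      rw [hTu, S_smul, hhalf]
    have hp1 : 1 / 2 * (r - δ - KL * δ) - KL * δ ≤ S b (B1 \ A) G (T y) := by
      have h1 := hcomp (B1 \ A) (Finset.sdiff_subset.trans hB12)
      rw [hSTu] at h1
      have h2 := S_sub b (B1 \ A) G (T y1) (T y2)
      have h3 : S b (B1 \ A) G (T y2) ≤ KL * δ := by
        rw [← S_proj b (B := B1) Finset.sdiff_subset]
        exact (hSle _ _).trans (mul_le_mul_of_nonneg_left h2a' hKL0)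
      linarith
    have hp2 : 1 / 2 * (r - δ - KL * δ) - KL * δ ≤ S b (B2 \ B1) G (T y) := by
      have h1 := hcomp (B2 \ B1) Finset.sdiff_subset
      rw [hSTu] at h1
      have h2 := S_sub b (B2 \ B1) G (T y2) (T y1)
      have h2' : S b (B2 \ B1) G (T y2 - T y1) = S b (B2 \ B1) G (T y1 - T y2) := by
        rw [← S_neg, neg_sub]
      have h3 : S b (B2 \ B1) G (T y1) ≤ KL * δ := by
        rw [S_sub_proj b (B := B1) Finset.sdiff_disjoint]
        exact (hSle _ _).trans (mul_le_mul_of_nonneg_left h1b hKL0)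
      linarith
    have hp3 : 1 - δ - 2 * (L * δ) - Real.sqrt (2 * δ) - (L * δ + L * C * δ) ≤
        S b (B3 \ B2) G (T y) := by
      have h1 := S_sdiff_ge b hB23 hG.1 (T y)
      have h2 : 1 - δ < ‖G (T y)‖ := by
        rw [← hGTy]; exact hy3re.trans_le (RCLike.re_le_norm _)
      have h3 : L * ‖T y - b.proj B3 (T y)‖ ≤ L * δ := mul_le_mul_of_nonneg_left hB3 hL
      have h4 : ‖G (b.proj B2 (T y))‖ ≤ L * δ + Real.sqrt (2 * δ) + (L * δ + L * C * δ) := by
        have e : G (b.proj B2 (T y)) = G (b.proj B2 (T (y - u))) + G (T u) -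
            G (T u - b.proj B2 (T u)) := by
          rw [← map_add, ← map_sub]
          congr 1
          rw [map_sub, map_sub]
          abel
        rw [e]
        have e1 : ‖G (b.proj B2 (T (y - u)))‖ ≤ L * δ :=
          (G.le_opNorm _).trans (mul_le_mul hG.1 hyB' (norm_nonneg _) hL)
        have e2 : ‖G (T u - b.proj B2 (T u))‖ ≤ L * ((1 + C) * δ) :=
          (G.le_opNorm _).trans (mul_le_mul hG.1 hTuB2 (norm_nonneg _) hL)
        have e3 : ‖G (T u)‖ ≤ Real.sqrt (2 * δ) := by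
          have f1 : G (T u) = (1 / 2 : 𝕜) * ((G (T y1) - 1) - (G (T y2) - 1)) := by
            rw [hTu, map_smul, map_sub, smul_eq_mul]
            ring
          rw [f1, norm_mul, hhalf]
          have f2 := norm_sub_one_le ((hG.2 y1).trans hy1) h1y
          have f3 := norm_sub_one_le ((hG.2 y2).trans hy2)
            (show 1 - δ < RCLike.re (G (T y2)) by linarith)
          have f4 := norm_sub_le (G (T y1) - 1) (G (T y2) - 1)
          linarith
        calc ‖G (b.proj B2 (T (y - u))) + G (T u) - G (T u - b.proj B2 (T u))‖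
            ≤ ‖G (b.proj B2 (T (y - u))) + G (T u)‖ + ‖G (T u - b.proj B2 (T u))‖ := norm_sub_le _ _
          _ ≤ ‖G (b.proj B2 (T (y - u)))‖ + ‖G (T u)‖ + ‖G (T u - b.proj B2 (T u))‖ := by
              gcongr
              exact norm_add_le _ _
          _ ≤ L * δ + Real.sqrt (2 * δ) + L * ((1 + C) * δ) := by linarith
          _ = _ := by ring
      linarith
    have hsplit : S b (B3 \ A) G (T y) =
        S b (B1 \ A) G (T y) + S b (B2 \ B1) G (T y) + S b (B3 \ B2) G (T y) := by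
      unfold S
      rw [← Finset.sum_union, ← Finset.sum_union]
      · congr 1
        ext i
        simp only [Finset.mem_union, Finset.mem_sdiff]
        constructor
        · rintro ⟨h1, h2⟩
          by_cases h3 : i ∈ B2
          · by_cases h4 : i ∈ B1
            · exact Or.inl (Or.inl ⟨h4, h2⟩)
            · exact Or.inl (Or.inr ⟨h3, h4⟩)
          · exact Or.inr ⟨h1, h3⟩
        · rintro ((⟨h1, h2⟩ | ⟨h1, h2⟩) | ⟨h1, h2⟩)
          · exact ⟨hB23 (hB12 h1), h2⟩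
          · exact ⟨hB23 h1, fun h => h2 (hAB1 h)⟩
          · exact ⟨h1, fun h => h2 (hAB2 h)⟩
      · rw [Finset.disjoint_left]
        intro i hi hi'
        simp only [Finset.mem_union, Finset.mem_sdiff] at hi hi'
        rcases hi with ⟨h1, h2⟩ | ⟨h1, h2⟩
        · exact hi'.2 (hB12 h1)
        · exact hi'.2 h1
      · rw [Finset.disjoint_left]
        intro i hi hi'
        simp only [Finset.mem_sdiff] at hi hi'
        exact hi'.2 hi.1
    rw [hSTy3, hsplit]
    linarith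

end Pool.Agent.Lib.MP_45e0c4_an
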