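import Mathlib

open Filter Topology

noncomputable section

namespace Pool.Agent.Lib.MP_45e0c4_an

/-- The super alternative Daugavet property: for every `x` in the unit sphere of `X` and every
weakly open `U ⊆ X` which meets the unit sphere, the supremum of `‖x + θ • y‖` over all `y` in
`W = U ∩ B_X` and all scalars `θ` of modulus one is equal to `2`. (Here `W` runs over all relatively
weakly open subsets of the closed unit ball `B_X` which meet the unit sphere; `WeakSpace 𝕜 X` is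
`X` with its weak topology and `toWeakSpace` is the identity map.) -/
def SuperADP (𝕜 X : Type*) [RCLike 𝕜] [NormedAddCommGroup X] [NormedSpace 𝕜 X] : Prop :=
  ∀ x : X, ‖x‖ = 1 → ∀ U : Set (WeakSpace 𝕜 X), IsOpen U →
    (∃ y : X, ‖y‖ = 1 ∧ toWeakSpace 𝕜 X y ∈ U) →
    IsLUB {r : ℝ | ∃ y : X, ‖y‖ ≤ 1 ∧ toWeakSpace 𝕜 X y ∈ U ∧
      ∃ θ : 𝕜, ‖θ‖ = 1 ∧ r = ‖x + θ • y‖} 2

variable {𝕜 : Type*} [RCLike 𝕜] {X : Type*} [NormedAddCommGroup X] [NormedSpace 𝕜 X]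

/-- In an infinite-dimensional space every finite system of linear conditions satisfied by a point
of the ball is satisfied by a point of the sphere. -/
lemma exists_sphere (hX : ¬ FiniteDimensional 𝕜 X) {ι : Type*} (B : Finset ι)
    (f : ι → StrongDual 𝕜 X) (u : X) (hu : ‖u‖ ≤ 1) :
    ∃ y : X, ‖y‖ = 1 ∧ ∀ i ∈ B, f i y = f i u := by
  classical
  let L : X →ₗ[𝕜] (B → 𝕜) := LinearMap.pi fun i => (f i.1).toLinearMap
  have hL : ¬ Function.Injective L := fun h => hX (FiniteDimensional.of_injective L h)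
  rw [← LinearMap.ker_eq_bot, LinearMap.ker_eq_bot'] at hL
  push Not at hL
  obtain ⟨w, hw, hw0⟩ := hL
  have hfw : ∀ i ∈ B, f i w = 0 := fun i hi => congrFun hw ⟨i, hi⟩
  have hwpos : 0 < ‖w‖ := norm_pos_iff.mpr hw0
  set φ : ℝ → ℝ := fun t => ‖u + (t : 𝕜) • w‖ with hφ
  have hcont : Continuous φ := by
    rw [hφ]
    have : Continuous (fun t : ℝ => ((t : ℝ) : 𝕜)) := RCLike.continuous_ofReal
    fun_prop
  have h0 : φ 0 ≤ 1 := by simp [hφ, hu]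
  have h1 : 1 ≤ φ (2 / ‖w‖) := by
    have h2 : ‖((2 / ‖w‖ : ℝ) : 𝕜) • w‖ = 2 := by
      rw [norm_smul, RCLike.norm_ofReal, abs_of_pos (by positivity)]
      field_simp
    have h3 : ‖((2 / ‖w‖ : ℝ) : 𝕜) • w‖ ≤ ‖u + ((2 / ‖w‖ : ℝ) : 𝕜) • w‖ + ‖u‖ := by
      calc ‖((2 / ‖w‖ : ℝ) : 𝕜) • w‖ = ‖(u + ((2 / ‖w‖ : ℝ) : 𝕜) • w) - u‖ := by
            congr 1; abel
        _ ≤ _ := norm_sub_le _ _
    show 1 ≤ ‖u + ((2 / ‖w‖ : ℝ) : 𝕜) • w‖
    linarith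
  have hmem : (1 : ℝ) ∈ Set.Icc (φ 0) (φ (2 / ‖w‖)) := ⟨h0, h1⟩
  obtain ⟨t, -, ht⟩ := intermediate_value_Icc (by positivity) hcont.continuousOn hmem
  refine ⟨u + (t : 𝕜) • w, ht, ?_⟩
  intro i hi
  rw [map_add, map_smul, hfw i hi, smul_zero, add_zero]

lemma weak_open {ι : Type*} (B : Finset ι) (f : ι → StrongDual 𝕜 X) (u : X) (δ : ι → ℝ) :
    IsOpen {y : WeakSpace 𝕜 X | ∀ i ∈ B, ‖f i ((toWeakSpace 𝕜 X).symm y) - f i u‖ < δ i} := by
  have hc : ∀ i, Continuous (fun y : WeakSpace 𝕜 X => f i ((toWeakSpace 𝕜 X).symm y)) := by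
    intro i
    exact WeakBilin.eval_continuous (topDualPairing 𝕜 X).flip (f i)
  have : {y : WeakSpace 𝕜 X | ∀ i ∈ B, ‖f i ((toWeakSpace 𝕜 X).symm y) - f i u‖ < δ i} =
      ⋂ i ∈ B, {y : WeakSpace 𝕜 X | ‖f i ((toWeakSpace 𝕜 X).symm y) - f i u‖ < δ i} := by
    ext y; simp
  rw [this]
  apply isOpen_biInter_finset
  intro i _
  exact isOpen_lt ((hc i).sub continuous_const).norm continuous_const

lemma SuperADP.exists_near (h : SuperADP 𝕜 X) (hX : ¬ FiniteDimensional 𝕜 X) {ι : Type*}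
    (B : Finset ι) (f : ι → StrongDual 𝕜 X) {x u : X} (hx : ‖x‖ = 1) (hu : ‖u‖ ≤ 1)
    {δ : ℝ} (hδ : 0 < δ) :
    ∃ y : X, ‖y‖ ≤ 1 ∧ (∀ i ∈ B, ‖f i y - f i u‖ < δ) ∧ ∃ θ : 𝕜, ‖θ‖ = 1 ∧
      2 - δ < ‖x + θ • y‖ := by
  obtain ⟨y0, hy0, hy0'⟩ := exists_sphere hX B f u hu
  have hlub := h x hx {y : WeakSpace 𝕜 X | ∀ i ∈ B, ‖f i ((toWeakSpace 𝕜 X).symm y) - f i u‖ < δ}
    (weak_open B f u fun _ => δ) ⟨y0, hy0, by
      intro i hi
      rw [LinearEquiv.symm_apply_apply, hy0' i hi, sub_self, norm_zero]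
      exact hδ⟩
  obtain ⟨r, ⟨y, hy1, hy2, θ, hθ, rfl⟩, hr, -⟩ := hlub.exists_between (show 2 - δ < 2 by linarith)
  refine ⟨y, hy1, ?_, θ, hθ, hr⟩
  intro i hi
  have := hy2 i hi
  rwa [LinearEquiv.symm_apply_apply] at this

end Pool.Agent.Lib.MP_45e0c4_an
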